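import Pool.Agent.T6.H99.RC.Fin
import Pool.Agent.T6.H99.RC.DEC
import Pool.Agent.T6.H99.RC.FST
import Pool.Agent.T6.H99.RC.CVP
import Pool.Agent.T6.H99.RC.CVM
import Pool.Agent.T6.H99.RC.SPP
import Pool.Agent.T6.H99.RC.SPM
import Pool.Agent.T6.H99.RC.IMP
import Pool.Agent.T6.H99.RC.INV
import Pool.Agent.T6.H99.RC.MON
import Pool.Agent.T6.H99.RC.CLS
import Pool.Agent.T6.H99.RC.ALG
import Pool.Agent.T6.H99.RC.TRA
import Pool.Agent.T6.H99.RC.TRB
import Pool.Agent.T6.H99.RC.FB

/-!
# A class of separable permutations that contains `Av(231)` and has a rational generating function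

Let `C = Av(2413, 3142, 2431, 12453) ∪ Av(2413, 3142, 1342, 35421)`. This permutation class is finitely
based, contains `Av(231)`, consists of separable permutations, and has exactly `(4 ^ (n - 1) + 2) / 3`
permutations of length `n ≥ 1`. Its generating function is `(1 - 4 x + x ^ 2) / ((1 - x) (1 - 4 x))`.

The proof. Every separable permutation of length at least two is a sum or a skew sum, and has a unique
first component. Let `y = x C(x)` with the Catalan series `C(x)`, so `x = y (1 - y)`; this is the
generating function of the sum indecomposable permutations in `Av(231)` and of the skew indecomposable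
permutations in `Av(132)`. The decomposition gives the generating function `i = x / (1 - 2 y)` of the
nonempty permutations in `Av(2413, 3142, 1342, 2431)`, and the two classes in the union have the same
generating function `1 + x / (1 - 2 y) + (x / (1 - x)) y ^ 3 / (1 - 2 y) ^ 2`. Their intersection is
`Av(2413, 3142, 1342, 2431)`. So the generating function of `C` is
`1 + x / (1 - 2 y) + (2 x / (1 - x)) y ^ 3 / (1 - 2 y) ^ 2`, and this does not change if `y` is replaced
by `1 - y`: it is a rational function of `x = y (1 - y)`.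
-/

set_option autoImplicit false

namespace Pool.Agent.Results.MP_163b0f_co.RationalSeparableClass

open Pool.Agent.T6.H99.RC PowerSeries

/-- There is a finitely based permutation class `C` with `Av(231) ⊆ C ⊆ Av(2413, 3142)` and a rational
generating function; it has `(4 ^ n + 2) / 3` permutations of length `n + 1`. -/
theorem result : ∃ C : PermClass,
    (∀ n, C.carrier n =
      (Av {⟨4, p2413⟩, ⟨4, p3142⟩, ⟨4, p2431⟩, ⟨5, p12453⟩}).carrier n ∪
      (Av {⟨4, p2413⟩, ⟨4, p3142⟩, ⟨4, p1342⟩, ⟨5, p35421⟩}).carrier n) ∧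
    (∃ B : Finset (Σ k, Equiv.Perm (Fin k)), C = Av (B : Set (Σ k, Equiv.Perm (Fin k)))) ∧
    (∀ n, (Av {⟨3, p231⟩}).carrier n ⊆ C.carrier n) ∧
    (∀ n, C.carrier n ⊆ (Av {⟨4, p2413⟩, ⟨4, p3142⟩}).carrier n) ∧
    (1 - X) * (1 - 4 * X) * genFun C = 1 - 4 * X + X ^ 2 ∧
    IsRational (genFun C) ∧
    ∀ n, 3 * Nat.card (C.carrier (n + 1)) = 4 ^ n + 2 :=
  final ⟨fst, cvp, cvm, spp, spm, imp, inv, mon, cls dec fst, alg⟩ tra trb fb

end Pool.Agent.Results.MP_163b0f_co.RationalSeparableClass
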